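import Pool.Agent.P8H72.RE.Stm
import Pool.Agent.N31.QWP.LKM

/-!
# RE/EXTR: from the data of relative embeddability to level 1
-/

set_option autoImplicit false

open scoped Topology InnerProductSpace
open Filter

namespace Pool.Agent.P8H81.RE

open Pool.Agent.P8H72.RE
open Pool.Agent.N557.QWX (Op tr IsTracial IsHom)
open Pool.Agent.N859.QX (QWEP)
open Pool.Agent.N557.QW (lam lam_dl lam_one lam_mul star_lam lam_mem LK LG cf)
open Pool.Agent.H494R3.GT (L2 dl dl_apply_ne inner_dl)
open Pool.Agent.N31.QWP (mem_LK_iff)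

section tri

variable {E : Type} [NormedAddCommGroup E] [InnerProductSpace ℂ E] [CompleteSpace E]
  {T : VonNeumannAlgebra E} {η : E}

lemma nsq (x : Op E) : ((‖x η‖ ^ 2 : ℝ) : ℂ) = tr η (star x * x) := by
  rw [tr, ContinuousLinearMap.mul_apply, ContinuousLinearMap.star_eq_adjoint,
    ContinuousLinearMap.adjoint_inner_right, inner_self_eq_norm_sq_to_K]
  push_cast
  rfl

lemma norm_star_vec (h : IsTracial T η) {x : Op E} (hx : x ∈ T) : ‖star x η‖ = ‖x η‖ := by
  have h1 := nsq (η := η) x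
  have h2 := nsq (η := η) (star x)
  rw [star_star, h.tracial x hx (star x) (star_mem hx)] at h2
  have h3 : ‖star x η‖ ^ 2 = ‖x η‖ ^ 2 := by
    have := h2.trans h1.symm
    exact_mod_cast this
  exact (pow_left_inj₀ (norm_nonneg _) (norm_nonneg _) two_ne_zero).1 h3

lemma norm_mul_vec (h : IsTracial T η) {x y : Op E} (hx : x ∈ T) (hy : y ∈ T) :
    ‖(x * y) η‖ ≤ ‖y‖ * ‖x η‖ := by
  rw [← norm_star_vec h (mul_mem hx hy), star_mul, ContinuousLinearMap.mul_apply,
    ← norm_star_vec h hx]
  refine (ContinuousLinearMap.le_opNorm _ _).trans ?_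
  rw [norm_star]

end tri

lemma ev_cons {R : Type} [Monoid R] [Star R] {n : ℕ} (P : Fin n → R) (s : Fin n × Bool)
    (w : List (Fin n × Bool)) :
    ev P (s :: w) = (if s.2 = true then P s.1 else star (P s.1)) * ev P w := by
  simp [ev]

lemma ev_nil {R : Type} [Monoid R] [Star R] {n : ℕ} (P : Fin n → R) : ev P [] = 1 := by
  simp [ev]

lemma ev_mem {E : Type} [NormedAddCommGroup E] [InnerProductSpace ℂ E] [CompleteSpace E]
    {T : VonNeumannAlgebra E} {n : ℕ} {P : Fin n → Op E} (h : ∀ i, P i ∈ T)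
    (w : List (Fin n × Bool)) : ev P w ∈ T := by
  induction w with
  | nil => rw [ev_nil]; exact one_mem T
  | cons s w ih =>
    rw [ev_cons]
    refine mul_mem ?_ ih
    split
    · exact h _
    · exact star_mem (h _)

theorem t_EXTR : S_EXTR := by
  intro G Γ _ _ K H j n γ hj M N hM hN K₁ _ _ _ N₁ ζ hN₁ hq ⟨D⟩
  have lamM : ∀ g : Γ, lam g ∈ M := fun g => hM.mem _ ⟨g, rfl⟩
  have lamN : ∀ g ∈ H, lam g ∈ N := fun g hg => hN.mem _ ⟨g, hg, rfl⟩
  have hNLK : ∀ y ∈ N, ∀ g ∉ H, cf y g = 0 := by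
    have h1 : N ≤ LK H := by
      refine hN.least _ ?_
      rintro x ⟨h, hh, rfl⟩
      rw [mem_LK_iff]
      refine ⟨lam_mem h, fun g hg => ?_⟩
      have hne : g ≠ h := fun e => hg (e ▸ hh)
      rw [cf, lam_dl, mul_one, inner_dl, dl_apply_ne hne]
    intro y hy g hg
    exact (mem_LK_iff.1 (h1 hy)).2 g hg
  set V : ∀ k, Fin n → Op (D.lv k).E := fun k i => D.π (lam (j (γ (FreeGroup.of i)))) k with hV
  choose Cb hCb using fun i => D.bdd (lam (j (γ (FreeGroup.of i)))) (lamM _)
  refine ⟨∑ i, |Cb i|, fun ε hε R S x hR hS hx => ?_⟩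
  have hVC : ∀ k i, ‖V k i‖ ≤ ∑ i, |Cb i| := fun k i =>
    ((hCb i k).trans (le_abs_self _)).trans
      (Finset.single_le_sum (f := fun i => |Cb i|) (fun i _ => abs_nonneg _) (Finset.mem_univ i))
  have hVT : ∀ k i, V k i ∈ (D.lv k).T := fun k i => D.mem _ (lamM _) k
  -- words
  have key : ∀ L : List (Fin n × Bool), Tendsto (fun k =>
      ‖(ev (V k) L - D.π (lam (j (γ (FreeGroup.mk L)))) k) (D.lv k).η‖) D.ω (𝓝 0) := by
    intro L
    induction L with
    | nil =>
      have h1 := D.one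
      refine h1.congr fun k => ?_
      have h2 : (FreeGroup.mk ([] : List (Fin n × Bool))) = 1 := rfl
      rw [ev_nil, h2, map_one, map_one, lam_one, ContinuousLinearMap.sub_apply,
        ContinuousLinearMap.sub_apply, norm_sub_rev]
    | cons s L ih =>
      obtain ⟨i, b⟩ := s
      set g : FreeGroup (Fin n) := FreeGroup.mk [(i, b)] with hg
      set h : FreeGroup (Fin n) := FreeGroup.mk L with hh
      have hgh : FreeGroup.mk ((i, b) :: L) = g * h := by
        rw [hg, hh, FreeGroup.mul_mk]; rfl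
      set sk : ∀ k, Op (D.lv k).E := fun k => if b = true then V k i else star (V k i) with hsk
      have hskT : ∀ k, sk k ∈ (D.lv k).T := by
        intro k
        simp only [hsk]
        split
        · exact hVT k i
        · exact star_mem (hVT k i)
      have hskN : ∀ k, ‖sk k‖ ≤ ∑ i, |Cb i| := by
        intro k
        simp only [hsk]
        split
        · exact hVC k i
        · rw [norm_star]; exact hVC k i
      have hs : Tendsto (fun k => ‖(sk k - D.π (lam (j (γ g))) k) (D.lv k).η‖) D.ω (𝓝 0) := by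
        cases b with
        | true =>
          refine tendsto_const_nhds.congr fun k => ?_
          simp only [hsk, if_true, hV]
          have : g = FreeGroup.of i := rfl
          rw [this, sub_self, ContinuousLinearMap.zero_apply, norm_zero]
        | false =>
          refine (D.star (lam (j (γ (FreeGroup.of i)))) (lamM _)).congr fun k => ?_
          simp only [hsk, hV]
          have h1 : g = (FreeGroup.of i)⁻¹ := rfl
          rw [h1, map_inv, map_inv, ← star_lam, ContinuousLinearMap.sub_apply,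
            ContinuousLinearMap.sub_apply, norm_sub_rev]
          simp
      obtain ⟨Ch, hCh⟩ := D.bdd (lam (j (γ h))) (lamM _)
      have hm := D.mul (lam (j (γ g))) (lamM _) (lam (j (γ h))) (lamM _)
      have hlim : Tendsto (fun k => (∑ i, |Cb i|) *
          ‖(ev (V k) L - D.π (lam (j (γ h))) k) (D.lv k).η‖ +
          |Ch| * ‖(sk k - D.π (lam (j (γ g))) k) (D.lv k).η‖ +
          ‖(D.π (lam (j (γ g)) * lam (j (γ h))) k -
            D.π (lam (j (γ g))) k * D.π (lam (j (γ h))) k) (D.lv k).η‖) D.ω (𝓝 0) := by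
        have := ((ih.const_mul (∑ i, |Cb i|)).add (hs.const_mul |Ch|)).add hm
        simpa using this
      refine squeeze_zero (fun k => norm_nonneg _) (fun k => ?_) hlim
      rw [ev_cons, hgh, map_mul, map_mul, lam_mul]
      change ‖(sk k * ev (V k) L - D.π (lam (j (γ g)) * lam (j (γ h))) k) (D.lv k).η‖ ≤ _
      have e1 : (sk k * ev (V k) L - D.π (lam (j (γ g)) * lam (j (γ h))) k) (D.lv k).η =
          sk k ((ev (V k) L - D.π (lam (j (γ h))) k) (D.lv k).η) +
          ((sk k - D.π (lam (j (γ g))) k) * D.π (lam (j (γ h))) k) (D.lv k).η -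
          (D.π (lam (j (γ g)) * lam (j (γ h))) k -
            D.π (lam (j (γ g))) k * D.π (lam (j (γ h))) k) (D.lv k).η := by
        simp only [ContinuousLinearMap.sub_apply, ContinuousLinearMap.mul_apply, map_sub]
        abel
      rw [e1]
      refine (norm_sub_le _ _).trans (add_le_add ((norm_add_le _ _).trans (add_le_add ?_ ?_))
        le_rfl)
      · exact (ContinuousLinearMap.le_opNorm _ _).trans
          (mul_le_mul_of_nonneg_right (hskN k) (norm_nonneg _))
      · refine (norm_mul_vec (D.lv k).tensor.tracial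
          (sub_mem (hskT k) (D.mem _ (lamM _) k)) (D.mem _ (lamM _) k)).trans ?_
        exact mul_le_mul_of_nonneg_right ((hCh k).trans (le_abs_self _)) (norm_nonneg _)
  have key1 : ∀ L : List (Fin n × Bool), γ (FreeGroup.mk L) = 1 → Tendsto (fun k =>
      ‖(ev (V k) L - 1) (D.lv k).η‖) D.ω (𝓝 0) := by
    intro L hL
    have h1 := (key L).add D.one
    rw [add_zero] at h1
    refine squeeze_zero (fun k => norm_nonneg _) (fun k => ?_) h1
    rw [hL, map_one, lam_one]
    refine le_trans (le_of_eq ?_) (norm_add_le _ _)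
    congr 1
    simp only [ContinuousLinearMap.sub_apply]
    abel
  have ev_small : ∀ {f : ℕ → ℝ}, Tendsto f D.ω (𝓝 0) → ∀ δ : ℝ, 0 < δ → ∀ᶠ k in D.ω, f k < δ :=
    fun hf δ hδ => hf.eventually (gt_mem_nhds hδ)
  -- unitaries
  have c1 : ∀ᶠ k in D.ω, ∀ i, ‖(star (V k i) * V k i - 1) (D.lv k).η‖ ≤ ε := by
    rw [Filter.eventually_all]
    intro i
    have h1 := key1 [(i, false), (i, true)] (by
      have : FreeGroup.mk [(i, false), (i, true)] = (FreeGroup.of i)⁻¹ * FreeGroup.of i := rfl
      rw [this, inv_mul_cancel, map_one])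
    filter_upwards [ev_small h1 ε hε] with k hk
    have e1 : ev (V k) [(i, false), (i, true)] = star (V k i) * V k i := by
      simp [ev]
    rw [e1] at hk
    exact hk.le
  have c2 : ∀ᶠ k in D.ω, ∀ w ∈ R, ‖(ev (V k) w.toWord - 1) (D.lv k).η‖ ≤ ε := by
    rw [Filter.eventually_all_finset]
    intro w hw
    have h1 := key1 w.toWord (by rw [FreeGroup.mk_toWord]; exact hR w hw)
    filter_upwards [ev_small h1 ε hε] with k hk
    exact hk.le
  have c3 : ∀ᶠ k in D.ω, ∀ w ∈ S, ∃ y ∈ (D.lv k).S,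
      ‖(ev (V k) w.toWord - y) (D.lv k).η‖ ≤ ε := by
    rw [Filter.eventually_all_finset]
    intro w hw
    obtain ⟨y, hy1, -, hy3⟩ := D.sub (lam (j (γ w))) (lamN _ ((hj _).2 (hS w hw)))
    have h1 := key w.toWord
    rw [FreeGroup.mk_toWord] at h1
    have h2 := h1.add hy3
    rw [add_zero] at h2
    filter_upwards [ev_small h2 ε hε] with k hk
    refine ⟨y k, hy1 k, le_trans ?_ hk.le⟩
    refine le_trans (le_of_eq ?_) (norm_add_le _ _)
    congr 1
    simp only [ContinuousLinearMap.sub_apply]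
    abel
  have c4 : ∀ᶠ k in D.ω, ∀ y ∈ (D.lv k).S,
      ‖⟪y (D.lv k).η, ev (V k) x.toWord (D.lv k).η⟫_ℂ‖ ≤ ε * ‖y (D.lv k).η‖ := by
    have hg : j (γ x) ∉ H := fun h => hx ((hj _).1 h)
    have hexp : IsExp N (dl (1 : Γ)) (lam (j (γ x))) 0 := by
      refine ⟨zero_mem N, ?_⟩
      rw [ContinuousLinearMap.zero_apply, eQ]
      symm
      rw [Submodule.starProjection_apply_eq_zero_iff]
      rw [L2sub, Submodule.orthogonal_closure, Submodule.mem_orthogonal]
      intro v hv
      refine Submodule.span_induction (p := fun v _ => ⟪v, (lam (j (γ x))) (dl 1)⟫_ℂ = 0)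
        ?_ ?_ ?_ ?_ hv
      · rintro v ⟨y, hy, rfl⟩
        rw [lam_dl, mul_one, ← inner_conj_symm]
        have h1 := hNLK y hy _ hg
        rw [cf] at h1
        rw [h1, map_zero]
      · exact inner_zero_left _
      · intro a b _ _ ha hb
        rw [inner_add_left, ha, hb, add_zero]
      · intro c a _ ha
        rw [inner_smul_left, ha, mul_zero]
    have h0 : Tendsto (fun k => ‖(D.π 0 k) (D.lv k).η‖) D.ω (𝓝 0) := by
      refine (D.smul 0 1 (one_mem M)).congr fun k => ?_
      rw [zero_smul, zero_smul, sub_zero]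
    have h1 := D.square _ (lamM (j (γ x))) 0 hexp
    have h2 := key x.toWord
    rw [FreeGroup.mk_toWord] at h2
    have h3 := (h1.add h0).add h2
    simp only [add_zero] at h3
    filter_upwards [ev_small h3 ε hε] with k hk
    intro y hy
    set η := (D.lv k).η with hη
    set p := D.π (lam (j (γ x))) k with hp
    have hyL : y η ∈ L2sub (D.lv k).S η :=
      Submodule.le_topologicalClosure _ (Submodule.subset_span ⟨y, hy, rfl⟩)
    have e1 : ⟪y η, p η⟫_ℂ = ⟪y η, eQ (D.lv k).S η (p η)⟫_ℂ := by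
      rw [eQ, ← Submodule.inner_starProjection_left_eq_right,
        Submodule.starProjection_eq_self_iff.2 hyL]
    have e2 : ev (V k) x.toWord η = (ev (V k) x.toWord - p) η + p η := by
      rw [ContinuousLinearMap.sub_apply]; abel
    rw [e2, inner_add_right, e1]
    have n1 : ‖eQ (D.lv k).S η (p η)‖ ≤
        ‖eQ (D.lv k).S η (p η) - (D.π 0 k) η‖ + ‖(D.π 0 k) η‖ := by
      refine le_trans (le_of_eq ?_) (norm_add_le _ _)
      congr 1; abel
    calc ‖⟪y η, (ev (V k) x.toWord - p) η⟫_ℂ + ⟪y η, eQ (D.lv k).S η (p η)⟫_ℂ‖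
        ≤ ‖y η‖ * ‖(ev (V k) x.toWord - p) η‖ + ‖y η‖ * ‖eQ (D.lv k).S η (p η)‖ :=
          (norm_add_le _ _).trans (add_le_add (norm_inner_le_norm _ _) (norm_inner_le_norm _ _))
      _ = (‖(ev (V k) x.toWord - p) η‖ + ‖eQ (D.lv k).S η (p η)‖) * ‖y η‖ := by ring
      _ ≤ ε * ‖y η‖ := by
          refine mul_le_mul_of_nonneg_right ?_ (norm_nonneg _)
          linarith
  obtain ⟨k, h1, h2, h3, h4⟩ := (c1.and (c2.and (c3.and c4))).exists
  exact ⟨K₁, _, _, _, N₁, ζ, D.lv k, V k, hN₁, hq, hVT k, hVC k, h1, h2, h3, h4⟩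

end Pool.Agent.P8H81.RE
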