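import Pool.Agent.P8H72.RE.Stm
import Pool.Agent.P8H38.RE.NetCore
import Pool.Agent.P8H66.RE.Pol
import Pool.Agent.N225.AS.Main

/-!
# RE/EXN: asymptotic homomorphisms with exact matrix units
-/

set_option autoImplicit false

open scoped Topology InnerProductSpace Kronecker ComplexOrder
open Filter Matrix

namespace Pool.Agent.P8H81.RE

open Pool.Agent.P8H72.RE
open Pool.Agent.N557.QWX (Op tr IsTracial IsHom)
open Pool.Agent.N859.QX (QWEP)
open Pool.Agent.W661.RC (hs)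
open Pool.Agent.W683.RC
open Pool.Agent.P8H38.RE (Null uu uu')

section gen

variable {H : Type} [NormedAddCommGroup H] [InnerProductSpace ℂ H] [CompleteSpace H]
  {A : VonNeumannAlgebra H} {ξ : H}

lemma smul_memA {x : Op H} (hx : x ∈ A) (c : ℂ) : c • x ∈ A :=
  A.toStarSubalgebra.toSubalgebra.smul_mem hx c

lemma psi_zero (R : AsRep A ξ) : Null R.F R.n (fun i => R.Ψ i 0) := by
  have h : Null R.F R.n (fun i => R.Ψ i ((0 : ℂ) • (1 : Op H)) - (0 : ℂ) • R.Ψ i 1) :=
    R.smul 0 1 (one_mem A)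
  refine h.congr fun i => ?_
  rw [zero_smul, zero_smul, sub_zero]

lemma psi_lin (R : AsRep A ξ) {J : Type} (s : Finset J) (c : J → ℂ) (y : J → Op H)
    (hy : ∀ j, y j ∈ A) :
    Null R.F R.n (fun i => R.Ψ i (∑ j ∈ s, c j • y j) - ∑ j ∈ s, c j • R.Ψ i (y j)) := by
  classical
  induction s using Finset.induction_on with
  | empty =>
    refine (psi_zero R).congr fun i => ?_
    simp
  | insert a s ha ih =>
    have hs1 : (∑ j ∈ s, c j • y j) ∈ A :=
      sum_mem fun j _ => smul_memA (hy j) (c j)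
    have h1 : Null R.F R.n (fun i => R.Ψ i (c a • y a + ∑ j ∈ s, c j • y j) -
        (R.Ψ i (c a • y a) + R.Ψ i (∑ j ∈ s, c j • y j))) :=
      R.add _ (smul_memA (hy a) (c a)) _ hs1
    have h2 : Null R.F R.n (fun i => R.Ψ i (c a • y a) - c a • R.Ψ i (y a)) :=
      R.smul (c a) (y a) (hy a)
    refine ((h1.add h2).add ih).congr fun i => ?_
    simp only [Finset.sum_insert ha]
    abel

lemma null_mul_psi (R : AsRep A ξ) {X : ∀ i, Matrix (Fin (R.n i)) (Fin (R.n i)) ℂ}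
    (hX : Null R.F R.n X) {x : Op H} (hx : x ∈ A) : Null R.F R.n (fun i => X i * R.Ψ i x) := by
  obtain ⟨C, hC⟩ := R.bdd x hx
  exact hX.of_le C fun i => (hC i (X i)).2

end gen

lemma fro_eq {X : Type} [Fintype X] (M : Matrix X X ℂ) :
    Pool.Agent.H698R3.Amalg.fn M = √(hs M) := rfl

theorem t_EXN (hNET : S_NET) (hCYC : S_CYC) : S_EXN := by
  intro H _ _ _ A ξ hA hq L d ι hι
  obtain ⟨R⟩ := hNET H A ξ hA hq
  obtain ⟨𝒢, _, _, ρ, c, hc, hmu⟩ := hCYC L d
  classical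
  have := R.ne
  set v : 𝒢 → Op H := fun g => ι (ρ g : ∀ l, Matrix (Fin (d l)) (Fin (d l)) ℂ) with hv
  have hvA : ∀ g, v g ∈ A := fun g => hι _
  have hvm : ∀ g h, v (g * h) = v g * v h := by
    intro g h
    simp only [hv]
    rw [map_mul, Submonoid.coe_mul, map_mul]
  have hvs : ∀ g, star (v g) * v g = 1 := by
    intro g
    simp only [hv]
    rw [← map_star, ← map_mul, Unitary.star_mul_self_of_mem (ρ g).2, map_one]
  choose U hU using fun (i : R.I) (g : 𝒢) =>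
    Pool.Agent.P8H66.RE.t_POL (Fin (R.n i)) (R.Ψ i (v g))
  have hPP : ∀ g, Null R.F R.n (fun i => (R.Ψ i (v g))ᴴ * R.Ψ i (v g) - 1) := by
    intro g
    have h1 : Null R.F R.n (fun i => R.Ψ i (star (v g)) - (R.Ψ i (v g))ᴴ) := R.star _ (hvA g)
    have h2 := null_mul_psi R h1 (hvA g)
    have h3 : Null R.F R.n (fun i => R.Ψ i (star (v g) * v g) -
        R.Ψ i (star (v g)) * R.Ψ i (v g)) := R.mul _ (star_mem (hvA g)) _ (hvA g)
    have h4 : Null R.F R.n (fun i => R.Ψ i 1 - 1) := R.one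
    refine ((h4.sub h2).sub h3).congr fun i => ?_
    rw [hvs, Matrix.sub_mul]
    abel
  have hPU : ∀ g, Null R.F R.n (fun i => R.Ψ i (v g) - (U i g).1) := fun g =>
    (hPP g).of_le 1 fun i => by rw [one_mul]; exact hU i g
  have hUU : ∀ g h, Null R.F R.n (fun i => (U i g).1 * (U i h).1 - (U i (g * h)).1) := by
    intro g h
    have h1 := hPU (g * h)
    have h2 : Null R.F R.n (fun i => R.Ψ i (v g * v h) - R.Ψ i (v g) * R.Ψ i (v h)) :=
      R.mul _ (hvA g) _ (hvA h)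
    have h3 := null_mul_psi R (hPU g) (hvA h)
    have h4 : Null R.F R.n (fun i => (U i g).1 * (R.Ψ i (v h) - (U i h).1)) :=
      (hPU h).of_le 1 fun i => by rw [one_mul, hs_isom_mul (uu (U i g))]
    refine (((h1.sub h2).sub h3).sub h4).congr fun i => ?_
    rw [hvm, Matrix.mul_sub, Matrix.sub_mul]
    abel
  set δ : R.I → ℝ := fun i => ∑ a : 𝒢, ∑ b : 𝒢,
    √(hs ((U i a).1 * (U i b).1 - (U i (a * b)).1) / R.n i) with hδ
  have hδ0 : ∀ i, 0 ≤ δ i := fun i =>
    Finset.sum_nonneg fun a _ => Finset.sum_nonneg fun b _ => Real.sqrt_nonneg _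
  have hδlim : Tendsto δ R.F (𝓝 0) := by
    have : Tendsto δ R.F (𝓝 (∑ a : 𝒢, ∑ b : 𝒢, (0 : ℝ))) := by
      refine tendsto_finsetSum _ fun a _ => tendsto_finsetSum _ fun b _ => ?_
      have := (hUU a b).sqrt
      simpa using this
    simpa using this
  have hn : ∀ i, (0 : ℝ) < R.n i := fun i => Nat.cast_pos.2 (R.pos i)
  have hstep : ∀ i, ∀ a b, Pool.Agent.H698R3.Amalg.fn ((U i a).1 * (U i b).1 - (U i (a * b)).1) ≤
      δ i * √(Fintype.card (Fin (R.n i))) := by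
    intro i a b
    rw [fro_eq, Fintype.card_fin]
    have h1 : √(hs ((U i a).1 * (U i b).1 - (U i (a * b)).1)) =
        √(hs ((U i a).1 * (U i b).1 - (U i (a * b)).1) / R.n i) * √(R.n i) := by
      rw [← Real.sqrt_mul (div_nonneg (hs_nonneg _) (hn i).le), div_mul_cancel₀ _ (hn i).ne']
    rw [h1]
    refine mul_le_mul_of_nonneg_right ?_ (Real.sqrt_nonneg _)
    refine (Finset.single_le_sum (f := fun b : 𝒢 =>
      √(hs ((U i a).1 * (U i b).1 - (U i (a * b)).1) / R.n i))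
      (fun b _ => Real.sqrt_nonneg _) (Finset.mem_univ b)).trans ?_
    exact Finset.single_le_sum (f := fun a : 𝒢 => ∑ b : 𝒢,
      √(hs ((U i a).1 * (U i b).1 - (U i (a * b)).1) / R.n i))
      (fun a _ => Finset.sum_nonneg fun b _ => Real.sqrt_nonneg _) (Finset.mem_univ a)
  choose ψ hψ using fun i => Pool.Agent.N225.AS.hs_step (U i) (δ i) (hδ0 i) (hstep i)
  have hψ1 : ∀ g, Null R.F R.n (fun i => (U i g).1 - (ψ i g).1) := by
    intro g
    have hlim : Tendsto (fun i => (2 * √(8 * δ i * (Fintype.card 𝒢 + 1)) + δ i) ^ 2) R.F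
        (𝓝 0) := by
      have h1 : Tendsto (fun i => (2 * √(8 * δ i * (Fintype.card 𝒢 + 1)) + δ i) ^ 2) R.F
          (𝓝 ((2 * √(8 * 0 * (Fintype.card 𝒢 + 1)) + 0) ^ 2)) :=
        (((((hδlim.const_mul 8).mul_const _).sqrt).const_mul 2).add hδlim).pow 2
      simpa using h1
    refine squeeze_zero (fun i => div_nonneg (hs_nonneg _) (hn i).le) (fun i => ?_) hlim
    have h1 := hψ i g
    rw [fro_eq, Fintype.card_fin] at h1
    rw [div_le_iff₀ (hn i)]
    have h2 : hs ((U i g).1 - (ψ i g).1) = √(hs ((U i g).1 - (ψ i g).1)) ^ 2 :=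
      (Real.sq_sqrt (hs_nonneg _)).symm
    rw [h2]
    calc √(hs ((U i g).1 - (ψ i g).1)) ^ 2
        ≤ ((2 * √(8 * δ i * (Fintype.card 𝒢 + 1)) + δ i) * √(R.n i)) ^ 2 :=
          pow_le_pow_left₀ (Real.sqrt_nonneg _) h1 2
      _ = (2 * √(8 * δ i * (Fintype.card 𝒢 + 1)) + δ i) ^ 2 * R.n i := by
          rw [mul_pow, Real.sq_sqrt (hn i).le]
  refine ⟨R, fun i l a b => ∑ g, c l a b g • (ψ i g : Matrix _ _ ℂ), fun i => hmu _ (ψ i),
    fun l a b => ?_⟩
  have e1 : ι (Pi.single l (Matrix.single a b 1)) = ∑ g, c l a b g • v g := by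
    rw [← hc l a b, map_sum]
    exact Finset.sum_congr rfl fun g _ => map_smul _ _ _
  have h1 := psi_lin R Finset.univ (c l a b) v hvA
  have h2 : Null R.F R.n (fun i => ∑ g, c l a b g • ((U i g).1 - (ψ i g).1)) :=
    Null.sum _ fun g _ => (hψ1 g).smul _
  have h3 : Null R.F R.n (fun i => ∑ g, c l a b g • (R.Ψ i (v g) - (U i g).1)) :=
    Null.sum _ fun g _ => (hPU g).smul _
  refine (((h1.neg).sub h2).sub h3).congr fun i => ?_
  rw [e1]
  simp only [smul_sub, Finset.sum_sub_distrib]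
  abel

end Pool.Agent.P8H81.RE
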